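import Mathlib
import Pool.Agent.Y724.QDef
import Pool.Agent.Y724.QMain

set_option autoImplicit false

/-!
# Heights on geometric quotients and smallest heights in orbits
-/

namespace Pool.Agent.Results.MP_216eb3_nt.QuotientHeights

open Pool.Agent.Y724.QDef

universe u

/-- Let `X` be a quasi-projective variety over the field of algebraic numbers, `G` a group acting on
`X` and `π` a regular map from `X` to projective `m`-space whose fibres are the orbits of `G`. Then
the height of `π x` and the infimum of the heights of the points of the orbit of `x` bound each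
other, up to positive factors and additive constants. -/
theorem result (n m : ℕ) (X : Set (PSpace n)) (hX : IsQuasiProjective X)
    (π : X → PSpace m) (hπ : IsRegularMap X π)
    (G : Type u) [Group G] [MulAction G X]
    (horb : ∀ x x' : X, π x = π x' ↔ ∃ g : G, g • x = x') :
    ∃ c₁ c₂ c₃ c₄ : ℝ, 0 < c₁ ∧ 0 < c₂ ∧ ∀ x : X,
      c₁ * ht (π x) - c₃ ≤ (⨅ g : G, ht (g • x).1) ∧
      (⨅ g : G, ht (g • x).1) ≤ c₂ * ht (π x) + c₄ := by
  obtain ⟨c, C, hc, hup⟩ := Pool.Agent.Y724.QMain.upper hX hπ
  obtain ⟨c', C', hc', hlow⟩ := Pool.Agent.Y724.QMain.lower hX hπ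
  refine ⟨c⁻¹, c', C * c⁻¹, C', inv_pos.mpr hc, hc', fun x => ⟨?_, ?_⟩⟩
  · apply le_ciInf
    intro g
    have h1 : π (g • x) = π x := ((horb x (g • x)).mpr ⟨g, rfl⟩).symm
    have h2 := hup (g • x)
    rw [h1] at h2
    have h3 : c⁻¹ * ht (π x) ≤ c⁻¹ * (C + c * ht (g • x).1) :=
      mul_le_mul_of_nonneg_left h2 (inv_pos.mpr hc).le
    have h4 : c⁻¹ * (C + c * ht (g • x).1) = C * c⁻¹ + ht (g • x).1 := by
      field_simp
    linarith
  · obtain ⟨x', hx', hht⟩ := hlow x
    obtain ⟨g, rfl⟩ := (horb x x').mp hx'.symm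
    have hbdd : BddBelow (Set.range fun g : G => ht (g • x).1) :=
      ⟨0, by rintro _ ⟨g, rfl⟩; exact Pool.Agent.Helper259.AbsHt.absLogHeight_nonneg _⟩
    have h1 := ciInf_le hbdd g
    linarith

end Pool.Agent.Results.MP_216eb3_nt.QuotientHeights
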